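import Pool.Agent.W809.JS.Fin

set_option autoImplicit false

open MeasureTheory Filter Topology Set Metric Real
open Pool.Agent.Results.MP_5c297c_an.NotJessen

namespace Pool.Agent.W809.JS

variable {n : ℕ}

theorem not_isJessen_phi (hI : S_ITER) (hW : S_LOW) (hS : S_SMALL) (hL : S_LOC) (hA : S_AVG)
    {G : Set (Fin n → ℝ)} (hG : IsOpen G) (hGc : Convex ℝ G) {p : Fin n → ℝ} (hp : p ∈ G)
    {i j : Fin n} (hij : i ≠ j) : ¬ IsJessen G (phi p i j) := by
  rintro ⟨f, ⟨hf, hap⟩, ⟨z₁, hz₁, hf₁⟩, hlim⟩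
  classical
  have hUo := isOpen_tube hG
  set F : (Fin n → ℂ) → ℂ := (tube G).piecewise f (fun _ => 0) with hF
  have hFeq : ∀ z ∈ tube G, F z = f z := fun z hz => piecewise_eq_of_mem _ _ _ hz
  have hFm : Measurable F :=
    ContinuousOn.measurable_piecewise hf.continuousOn continuousOn_const hUo.measurableSet
  have hFd : DifferentiableOn ℂ F (tube G) := hf.congr hFeq
  have hcptG : ∀ y ∈ G, ∀ x : Fin n → ℝ, cpt x y ∈ tube G := by
    intro y hy x
    show imPart (cpt x y) ∈ G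
    rw [imPart_cpt]; exact hy
  refine no_fun hI hW hS hL hA hG hGc hFm hFd hz₁ (by rw [hFeq z₁ hz₁]; exact hf₁) hp ?_ hij ?_
  · intro ε hε E hE hEG
    have hcl : closure E = E := hE.isClosed.closure_eq
    obtain ⟨l, hl, hlh⟩ := hap ε hε E (by rw [hcl]; exact hE) (by rw [hcl]; exact hEG)
    refine ⟨l, hl, fun a => ?_⟩
    obtain ⟨h, hh1, hh2⟩ := hlh a
    refine ⟨h, hh1, fun z hz => ?_⟩
    have hzG : z ∈ tube G := hEG hz
    have e1 : z + cpt h 0 = fun j => z j + (h j : ℂ) := by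
      funext j; simp [cpt]
    have hzh : z + cpt h 0 ∈ tube G := by
      show imPart (z + cpt h 0) ∈ G
      rw [imPart_add, imPart_cpt, add_zero]; exact hzG
    rw [hFeq z hzG, hFeq _ hzh, e1]
    have h3 : ‖f (fun j => z j + (h j : ℂ)) - f z‖ₑ ≤
        tubeNorm (fun z => f (fun j => z j + (h j : ℂ)) - f z) E := by
      unfold tubeNorm
      exact le_iSup₂ (f := fun (z : Fin n → ℂ) (_ : z ∈ tube E) => ‖f (fun j => z j + (h j : ℂ)) - f z‖ₑ) z hz
    have h4 := (h3.trans_lt hh2).le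
    rw [← ofReal_norm, ENNReal.ofReal_le_ofReal_iff hε.le] at h4
    exact h4
  · intro y hy
    refine (hlim y hy).congr fun t => ?_
    unfold logMean
    congr 1
    refine integral_congr_ae (ae_of_all _ fun x => ?_)
    have e : (fun j => (x j : ℂ) + (y j : ℂ) * Complex.I) = cpt x y := rfl
    simp only [e]
    rw [hFeq _ (hcptG y hy x)]

theorem concl (hI : S_ITER) (hW : S_LOW) (hS : S_SMALL) (hL : S_LOC) (hA : S_AVG) :
    ∀ n : ℕ, 2 ≤ n → ∀ G : Set (Fin n → ℝ), IsOpen G → Convex ℝ G → G.Nonempty →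
    ∃ φ : (Fin n → ℝ) → ℝ, StrictConvexOn ℝ G φ ∧
      (∀ a b : Fin n → ℝ, a ≠ b → segment ℝ a b ⊆ G →
        ¬ ∃ (A : (Fin n → ℝ) →ₗ[ℝ] ℝ) (c : ℝ), ∀ y ∈ segment ℝ a b, φ y = A y + c) ∧
      ¬ IsJessen G φ := by
  intro n hn G hG hGc hGne
  obtain ⟨p, hp⟩ := hGne
  have hij : (⟨0, by omega⟩ : Fin n) ≠ ⟨1, by omega⟩ := by simp
  exact ⟨phi p ⟨0, by omega⟩ ⟨1, by omega⟩, phi_strict p _ _ G hGc,
    fun a b hab hseg => not_affine_of_strict (phi_strict p _ _ G hGc) hab hseg,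
    not_isJessen_phi hI hW hS hL hA hG hGc hp hij⟩

end Pool.Agent.W809.JS
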