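import Pool.Agent.W809.JS.Model

set_option autoImplicit false

open MeasureTheory Filter Topology Set Metric Real
open Pool.Agent.Results.MP_5c297c_an.NotJessen

namespace Pool.Agent.W809.JS

variable {n : ℕ}

lemma dfc_le_of {M η : ℝ} {u : ℂ} (hη : 0 < η) (h : η ≤ ‖u‖) :
    dfc M u ≤ ENNReal.ofReal (max 0 (M - Real.log η)) := by
  have hu : u ≠ 0 := norm_pos_iff.1 (hη.trans_le h)
  unfold dfc
  rw [if_neg hu]
  refine ENNReal.ofReal_le_ofReal (le_trans ?_ (le_max_right _ _))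
  have := Real.log_le_log hη h
  linarith

lemma norm_imPart_sub {h p : Fin n → ℝ} {z : Fin n → ℂ} {r : ℝ} (hz : z ∈ closedBall (cpt h p) r) (k : Fin n) :
    |(z k).im - p k| ≤ r := by
  have h1 : ‖z - cpt h p‖ ≤ r := by simpa [dist_eq_norm] using hz
  have h2 := (norm_imPart_le (z - cpt h p)).trans h1
  rw [imPart_sub, imPart_cpt] at h2
  exact (norm_le_pi_norm (imPart z - p) k).trans h2

lemma norm_rePart_sub {h p : Fin n → ℝ} {z : Fin n → ℂ} {r : ℝ} (hz : z ∈ closedBall (cpt h p) r) (k : Fin n) :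
    |(z k).re - h k| ≤ r := by
  have h1 : ‖z - cpt h p‖ ≤ r := by simpa [dist_eq_norm] using hz
  have h2 := (norm_le_pi_norm (z - cpt h p) k).trans h1
  have h3 := (Complex.abs_re_le_norm ((z - cpt h p) k)).trans h2
  simpa [cpt] using h3

lemma exists_B (hI : S_ITER) {f : (Fin n → ℂ) → ℂ} {p : Fin n → ℝ} {r M : ℝ} (hr : 0 < r) (hr1 : r ≤ 1 / 4)
    (hM : 0 ≤ M) (hf : Hol f p (40 * r) M) {η : ℝ} (hη : 0 < η)
    (hlow : ∀ h : Fin n → ℝ, ∃ z ∈ closedBall (cpt h p) r, η ≤ ‖f z‖) :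
    ∃ B : ℝ, ∀ h : Fin n → ℝ, ∀ y ∈ closedBall p (2 * r),
      ∫⁻ x in closedBall h r, dfc M (f (cpt x y)) ≤ ENNReal.ofReal B := by
  obtain ⟨C, hC1, hC⟩ := hI
  set K := max 0 (M - Real.log η) with hK
  have hK0 : 0 ≤ K := le_max_left _ _
  have hC0 : 0 ≤ C := by linarith
  refine ⟨(2 * r) ^ n + C ^ n * K ^ 2, fun h y hy => ?_⟩
  obtain ⟨z, hz, hzη⟩ := hlow h
  have hU : IsOpen (tube (ball p (40 * r))) := isOpen_tube isOpen_ball
  have hy' : ∀ k, |y k - p k| ≤ 2 * r := by
    intro k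
    rw [mem_closedBall, dist_pi_le_iff (by positivity)] at hy
    have := hy k
    rwa [Real.dist_eq] at this
  have hsub : closedBall z (8 * (4 * r)) ⊆ tube (ball p (40 * r)) := by
    intro w hw
    show imPart w ∈ ball p (40 * r)
    rw [mem_ball, dist_pi_lt_iff (by positivity)]
    intro k
    have h1 : ‖w - z‖ ≤ 8 * (4 * r) := by simpa [dist_eq_norm] using hw
    have h2 : ‖(w - z) k‖ ≤ 8 * (4 * r) := (norm_le_pi_norm _ k).trans h1
    have h3 := (Complex.abs_im_le_norm ((w - z) k)).trans h2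
    have h4 := norm_imPart_sub hz k
    have e : imPart w k - p k = ((w - z) k).im + ((z k).im - p k) := by
      simp [imPart]
    rw [Real.dist_eq, e]
    have := abs_add_le ((w - z) k).im ((z k).im - p k)
    linarith
  have h1 := (hC n (4 * r) M z y f (tube (ball p (40 * r))) (by positivity) (by linarith) hM hf.1 hU hf.2.1 hsub
    hf.2.2 (by
      intro k
      have h2 := hy' k
      have h3 := norm_imPart_sub hz k
      have e : y k - (z k).im = (y k - p k) - ((z k).im - p k) := by ring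
      rw [e]
      have := abs_sub (y k - p k) ((z k).im - p k)
      linarith)).1
  have hball : closedBall h r ⊆ closedBall (rePart z) (4 * r) := by
    intro x hx
    rw [mem_closedBall, dist_pi_le_iff (by positivity)] at hx ⊢
    intro k
    have h2 := hx k
    have h3 := norm_rePart_sub hz k
    rw [Real.dist_eq] at h2 ⊢
    have e : x k - rePart z k = (x k - h k) - ((z k).re - h k) := by
      simp [rePart]
    rw [e]
    have := abs_sub (x k - h k) ((z k).re - h k)
    linarith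
  have hdm : Measurable (fun x : Fin n → ℝ => (dfc M (f (cpt x y))) ^ 2) :=
    ((measurable_dfc M).comp (hf.1.comp (measurable_cpt_left y))).pow_const 2
  have hvol : volume (closedBall h r) = ENNReal.ofReal ((2 * r) ^ n) := by
    rw [Real.volume_pi_closedBall h hr.le, Fintype.card_fin]
  have hpt : ∀ a : ENNReal, a ≤ 1 + a ^ 2 := by
    intro a
    rcases le_total a 1 with ha | ha
    · exact ha.trans (le_add_right le_rfl)
    · calc a = a * 1 := (mul_one a).symm
        _ ≤ a * a := by gcongr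
        _ = a ^ 2 := (sq a).symm
        _ ≤ 1 + a ^ 2 := le_add_left le_rfl
  calc ∫⁻ x in closedBall h r, dfc M (f (cpt x y))
      ≤ ∫⁻ x in closedBall h r, (1 + (dfc M (f (cpt x y))) ^ 2) := lintegral_mono fun x => hpt _
    _ = volume (closedBall h r) + ∫⁻ x in closedBall h r, (dfc M (f (cpt x y))) ^ 2 := by
        rw [lintegral_add_left measurable_const, setLIntegral_one]
    _ ≤ ENNReal.ofReal ((2 * r) ^ n) + ENNReal.ofReal (C ^ n) * (ENNReal.ofReal K) ^ 2 := by
        rw [hvol]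
        gcongr
        calc ∫⁻ x in closedBall h r, (dfc M (f (cpt x y))) ^ 2
            ≤ ∫⁻ x in closedBall (rePart z) (4 * r), (dfc M (f (cpt x y))) ^ 2 := lintegral_mono_set hball
          _ ≤ _ := h1
          _ ≤ _ := by
            gcongr
            exact dfc_le_of hη hzη
    _ = ENNReal.ofReal ((2 * r) ^ n + C ^ n * K ^ 2) := by
        rw [← ENNReal.ofReal_pow hK0, ← ENNReal.ofReal_mul (by positivity), ← ENNReal.ofReal_add (by positivity)
          (by positivity)]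

/-- no almost periodic holomorphic function has the mean function `phi` -/
theorem no_fun (hI : S_ITER) (hW : S_LOW) (hS : S_SMALL) (hL : S_LOC) (hA : S_AVG)
    {G : Set (Fin n → ℝ)} (hG : IsOpen G) (hGc : Convex ℝ G)
    {f : (Fin n → ℂ) → ℂ} (hfm : Measurable f) (hf : DifferentiableOn ℂ f (tube G))
    {z₁ : Fin n → ℂ} (hz₁ : z₁ ∈ tube G) (hf₁ : f z₁ ≠ 0) {p : Fin n → ℝ} (hpG : p ∈ G)
    (hap : ∀ ε : ℝ, 0 < ε → ∀ E : Set (Fin n → ℝ), IsCompact E → E ⊆ G → ∃ l : ℝ, 0 < l ∧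
      ∀ a : Fin n → ℝ, ∃ h ∈ cube l a, ∀ z ∈ tube E, ‖f (z + cpt h 0) - f z‖ ≤ ε)
    {i j : Fin n} (hij : i ≠ j)
    (hφ : ∀ y ∈ G, Tendsto (logMean f y) atTop (𝓝 (phi p i j y))) : False := by
  obtain ⟨ρ, hρ, hρG⟩ : ∃ ρ : ℝ, 0 < ρ ∧ closedBall p ρ ⊆ G := by
    obtain ⟨ε, hε, h⟩ := Metric.isOpen_iff.1 hG p hpG
    exact ⟨ε / 2, by positivity, (closedBall_subset_ball (by linarith)).trans h⟩
  have hUo := isOpen_tube hG
  -- boundedness
  obtain ⟨M, hM0, hMn, hM⟩ : ∃ M : ℝ, 0 ≤ M ∧ (n:ℝ) + 1 ≤ M ∧ ∀ z ∈ tube (closedBall p ρ), ‖f z‖ ≤ Real.exp M := by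
    obtain ⟨l, hl, hlh⟩ := hap 1 one_pos (closedBall p ρ) (isCompact_closedBall _ _) hρG
    have hK : IsCompact ((fun q : (Fin n → ℝ) × (Fin n → ℝ) => cpt q.1 q.2) ''
        (closedBall (0 : Fin n → ℝ) l ×ˢ closedBall p ρ)) :=
      ((isCompact_closedBall _ _).prod (isCompact_closedBall _ _)).image continuous_cpt
    have hKU : ((fun q : (Fin n → ℝ) × (Fin n → ℝ) => cpt q.1 q.2) ''
        (closedBall (0 : Fin n → ℝ) l ×ˢ closedBall p ρ)) ⊆ tube G := by
      rintro _ ⟨q, hq, rfl⟩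
      show imPart (cpt q.1 q.2) ∈ G
      rw [imPart_cpt]; exact hρG hq.2
    obtain ⟨C, hC⟩ := hK.exists_bound_of_continuousOn (hf.continuousOn.mono hKU)
    refine ⟨max ((n:ℝ) + 1) (|C| + 1), ?_, le_max_left _ _, ?_⟩
    · exact le_trans (by positivity) (le_max_left _ _)
    · intro z hz
      obtain ⟨h, hh1, hh2⟩ := hlh (-(rePart z))
      have h1 := hh2 z hz
      have h2 : ‖f (z + cpt h 0)‖ ≤ C := by
        refine hC _ ⟨(rePart (z + cpt h 0), imPart (z + cpt h 0)), ⟨?_, ?_⟩, cpt_eta (z + cpt h 0)⟩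
        · rw [mem_closedBall, dist_pi_le_iff hl.le]
          intro j
          have h3 := hh1 j
          rw [rePart_add, rePart_cpt, Real.dist_eq]
          simp only [Pi.neg_apply, sub_neg_eq_add, Pi.add_apply, Pi.zero_apply, sub_zero] at h3 ⊢
          rw [add_comm]; exact h3.le
        · show imPart (z + cpt h 0) ∈ closedBall p ρ
          rw [imPart_add, imPart_cpt, add_zero]; exact hz
      have h3 : ‖f z‖ ≤ C + 1 := by
        have := norm_sub_norm_le (f z) (f (z + cpt h 0))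
        rw [norm_sub_rev] at this
        linarith
      have h4 := Real.add_one_le_exp (max ((n:ℝ) + 1) (|C| + 1))
      have h5 := le_max_right ((n:ℝ) + 1) (|C| + 1)
      have h6 := le_abs_self C
      linarith
  set r : ℝ := min (1 / 4) (ρ / 40) with hrdef
  have hr : 0 < r := lt_min (by norm_num) (by positivity)
  have hr1 : r ≤ 1 / 4 := min_le_left _ _
  have hr2 : 40 * r ≤ ρ := by
    have := min_le_right (1 / 4 : ℝ) (ρ / 40)
    rw [← hrdef] at this
    linarith
  have hsubρ : ball p (40 * r) ⊆ closedBall p ρ := ball_subset_closedBall.trans (closedBall_subset_closedBall hr2)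
  have hH : Hol f p (40 * r) M :=
    ⟨hfm, hf.mono fun z hz => hρG (hsubρ hz), fun z hz => hM z (hsubρ hz)⟩
  have hAP : AP f p (40 * r) := by
    intro ε hε
    obtain ⟨l, hl, h⟩ := hap ε hε (closedBall p ρ) (isCompact_closedBall _ _) hρG
    refine ⟨l, hl, fun a => ?_⟩
    obtain ⟨h', h1, h2⟩ := h a
    exact ⟨h', h1, fun z hz => h2 z (hsubρ hz)⟩
  have hne : ∃ z ∈ tube (ball p (40 * r)), f z ≠ 0 := by
    obtain ⟨z', hz', hne⟩ := exists_ne_zero_near hUo (convex_tube hGc) hf hz₁ hf₁ (z := cpt 0 p)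
      (by show imPart (cpt 0 p) ∈ G; rw [imPart_cpt]; exact hpG) (δ := 40 * r) (by positivity)
    refine ⟨z', ?_, hne⟩
    show imPart z' ∈ ball p (40 * r)
    rw [mem_ball, dist_eq_norm]
    have h1 : ‖z' - cpt 0 p‖ < 40 * r := by simpa [dist_eq_norm] using hz'
    have h2 := (norm_imPart_le (z' - cpt 0 p)).trans_lt h1
    rwa [imPart_sub, imPart_cpt] at h2
  obtain ⟨η, hη, hlow⟩ := hW n f p (40 * r) M r hr (by linarith) hM0 hH hAP hne
  obtain ⟨B, hB⟩ := exists_B hI hr hr1 hM0 hH hη hlow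
  obtain ⟨C, hC, hloc⟩ := hL n
  set K := max 0 (M - Real.log η) with hK
  have hK0 : 0 ≤ K := le_max_left _ _
  -- choice of the small parameter
  set d : ℝ := r ^ 2 * (2 * r) ^ n / (2 * (C * (K + 1))) with hd
  have hK1 : 0 < K + 1 := by linarith
  have hdpos : 0 < d := by positivity
  have hdeq : C * (K + 1) * d = r ^ 2 * (2 * r) ^ n / 2 := by
    rw [hd]; field_simp
  obtain ⟨ε₀, hε₀, hsm⟩ := hS n i j hij f p (40 * r) M r hr (by linarith) (by linarith) hM0 hH hAP hne (d ^ 2)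
    (by positivity)
  set ε : ℝ := min ε₀ r with hεdef
  have hε : 0 < ε := lt_min hε₀ hr
  have hεr : ε ≤ r := min_le_right _ _
  have hεε : ε ≤ ε₀ := min_le_left _ _
  have hloc' : ∀ h : Fin n → ℝ, ENNReal.ofReal (2 * π) * ∫⁻ t in Icc 0 (r / 2), ∫⁻ x in closedBall h r,
        dfc M (f (cpt x (yt p i j t)))
      ≤ (∫⁻ t in Icc 0 (r / 2), ∫⁻ x in closedBall h r, ∫⁻ θ in Ioc 0 (2 * π),
          dfc M (f (cpt x (yt p i j t) + circleMap 0 ε θ • (Pi.single i 1 : Fin n → ℂ))))
        + ENNReal.ofReal (C * ε / r * d * K) := by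
    intro h
    obtain ⟨z, hz, hzη⟩ := hlow h
    refine (hloc i j hij f p r M hr hr1 hM0 hH h z hz ε hε hεr (toMeasurable volume (bad f p i j r ε h))
      (measurableSet_toMeasurable _ _) (subset_toMeasurable _ _)).trans ?_
    gcongr
    rw [measure_toMeasurable]
    calc ENNReal.ofReal (C * ε / r) * volume (bad f p i j r ε h) ^ (1 / 2 : ℝ) * dfc M (f z)
        ≤ ENNReal.ofReal (C * ε / r) * (ENNReal.ofReal (d ^ 2)) ^ (1 / 2 : ℝ) * ENNReal.ofReal K := by
          gcongr
          · exact hsm ε hε hεε h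
          · exact dfc_le_of hη hzη
      _ = ENNReal.ofReal (C * ε / r * d * K) := by
          rw [ENNReal.ofReal_rpow_of_nonneg (by positivity) (by norm_num), ← Real.sqrt_eq_rpow,
            Real.sqrt_sq hdpos.le, ← ENNReal.ofReal_mul (by positivity), ← ENNReal.ofReal_mul (by positivity)]
  have hsub2 : closedBall p (2 * r) ⊆ G := fun y hy => hρG (closedBall_subset_closedBall (by linarith) hy)
  have key := hA n i j hij f p r M (phi p i j) hr hr1 hM0 hH (continuous_phi p i j)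
    (fun y hy => hφ y (hsub2 hy)) B hB ε (C * ε / r * d * K) hε hεr (by positivity) hloc'
  -- evaluate
  have hytmem : ∀ t ∈ Icc (0:ℝ) (r / 2), yt p i j t ∈ closedBall p r := fun t ht =>
    yt_mem hij hr (by linarith) ht
  have him : ∀ θ : ℝ, imPart (circleMap 0 ε θ • (Pi.single i 1 : Fin n → ℂ))
      = fun k => if k = i then ε * Real.sin θ else 0 := by
    intro θ
    funext k
    have hc : (circleMap 0 ε θ).im = ε * Real.sin θ := by
      simp [circleMap, Complex.exp_im]
    by_cases hk : k = i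
    · subst hk; simp [imPart, hc]
    · simp [imPart, hk]
  have hphi0 : ∀ t, phi p i j (yt p i j t) = t ^ 4 + t ^ 2 := by
    intro t
    have h1 := phi_yt p hij t 0
    have e : (yt p i j t + fun k => if k = i then (0:ℝ) else 0) = yt p i j t := by
      funext k; simp
    rw [e] at h1
    rw [h1, neg_zero, max_self]; ring
  have hmem2 : ∀ t ∈ Icc (0:ℝ) (r / 2), ∀ θ : ℝ,
      yt p i j t + imPart (circleMap 0 ε θ • (Pi.single i 1 : Fin n → ℂ)) ∈ closedBall p (2 * r) := by
    intro t ht θ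
    have h1 := hytmem t ht
    rw [mem_closedBall, dist_pi_le_iff (by positivity)] at h1 ⊢
    intro k
    have h2 := h1 k
    rw [Real.dist_eq] at h2 ⊢
    have h3 : |imPart (circleMap 0 ε θ • (Pi.single i 1 : Fin n → ℂ)) k| ≤ r := by
      rw [him]
      simp only
      split_ifs
      · rw [abs_mul, abs_of_pos hε]
        have := Real.abs_sin_le_one θ
        nlinarith
      · rw [abs_zero]; exact hr.le
    have e : (yt p i j t + imPart (circleMap 0 ε θ • (Pi.single i 1 : Fin n → ℂ))) k - p k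
        = (yt p i j t k - p k) + imPart (circleMap 0 ε θ • (Pi.single i 1 : Fin n → ℂ)) k := by
      rw [Pi.add_apply]; ring
    rw [e]
    have := abs_add_le (yt p i j t k - p k) (imPart (circleMap 0 ε θ • (Pi.single i 1 : Fin n → ℂ)) k)
    linarith
  have hpi : 0 < 2 * π := by positivity
  have hin : ∀ t ∈ Icc (0:ℝ) (r / 2), ∫⁻ θ in Ioc 0 (2 * π),
      ENNReal.ofReal (M - phi p i j (yt p i j t + imPart (circleMap 0 ε θ • (Pi.single i 1 : Fin n → ℂ))))
      ≤ ENNReal.ofReal (2 * π * (M - (t ^ 4 + t ^ 2)) - 2 * ε) := by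
    intro t ht
    have hnn : ∀ θ : ℝ, 0 ≤ M - ((t ^ 2 + ε * Real.sin θ) ^ 2 + t ^ 2 + max 0 (-(ε * Real.sin θ))) := by
      intro θ
      have h1 := phi_le p i j hr hr1 (hmem2 t ht θ)
      rw [him, phi_yt p hij] at h1
      linarith
    have hint : IntegrableOn (fun θ : ℝ => M - ((t ^ 2 + ε * Real.sin θ) ^ 2 + t ^ 2 + max 0 (-(ε * Real.sin θ))))
        (Ioc 0 (2 * π)) := by
      have : IntervalIntegrable (fun θ : ℝ => M - ((t ^ 2 + ε * Real.sin θ) ^ 2 + t ^ 2 + max 0 (-(ε * Real.sin θ))))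
          volume 0 (2 * π) := by
        apply Continuous.intervalIntegrable
        fun_prop
      rwa [intervalIntegrable_iff_integrableOn_Ioc_of_le hpi.le] at this
    have e1 : ∀ θ : ℝ, phi p i j (yt p i j t + imPart (circleMap 0 ε θ • (Pi.single i 1 : Fin n → ℂ)))
        = (t ^ 2 + ε * Real.sin θ) ^ 2 + t ^ 2 + max 0 (-(ε * Real.sin θ)) := by
      intro θ
      rw [him, phi_yt p hij]
    simp_rw [e1]
    rw [← ofReal_integral_eq_lintegral_ofReal hint (ae_of_all _ hnn),
      ← intervalIntegral.integral_of_le hpi.le, integral_phi M t ε hε.le]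
    refine ENNReal.ofReal_le_ofReal ?_
    have : 0 ≤ π * ε ^ 2 := by positivity
    linarith
  have hnn2 : ∀ t ∈ Icc (0:ℝ) (r / 2), 0 ≤ 2 * π * (M - (t ^ 4 + t ^ 2)) - 2 * ε := by
    intro t ht
    have h1 := integral_phi M t ε hε.le
    have h2 : 0 ≤ ∫ θ in (0:ℝ)..(2 * π), (M - ((t ^ 2 + ε * Real.sin θ) ^ 2 + t ^ 2 + max 0 (-(ε * Real.sin θ)))) := by
      refine intervalIntegral.integral_nonneg hpi.le fun θ _ => ?_
      have h1 := phi_le p i j hr hr1 (hmem2 t ht θ)
      rw [him, phi_yt p hij] at h1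
      linarith
    have : 0 ≤ π * ε ^ 2 := by positivity
    linarith
  have hlhs : ENNReal.ofReal (2 * π) * ∫⁻ t in Icc 0 (r / 2), ENNReal.ofReal (M - phi p i j (yt p i j t))
      = (∫⁻ t in Icc 0 (r / 2), ENNReal.ofReal (2 * π * (M - (t ^ 4 + t ^ 2)) - 2 * ε)) + ENNReal.ofReal (2 * ε) * ENNReal.ofReal (r / 2) := by
    have hm : Measurable (fun t : ℝ => ENNReal.ofReal (M - phi p i j (yt p i j t))) := by
      simp_rw [hphi0]; fun_prop
    rw [← lintegral_const_mul _ hm]
    have hv : ENNReal.ofReal (2 * ε) * ENNReal.ofReal (r / 2) = ∫⁻ _ in Icc (0:ℝ) (r / 2), ENNReal.ofReal (2 * ε) := by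
      rw [setLIntegral_const, Real.volume_Icc, sub_zero]
    rw [hv, ← lintegral_add_right _ measurable_const]
    refine setLIntegral_congr_fun measurableSet_Icc fun t ht => ?_
    rw [hphi0, ← ENNReal.ofReal_mul hpi.le, ← ENNReal.ofReal_add (hnn2 t ht) (by positivity)]
    congr 1
    ring
  rw [hlhs] at key
  have hrhs : ∫⁻ t in Icc 0 (r / 2), ∫⁻ θ in Ioc 0 (2 * π),
      ENNReal.ofReal (M - phi p i j (yt p i j t + imPart (circleMap 0 ε θ • (Pi.single i 1 : Fin n → ℂ))))
      ≤ ∫⁻ t in Icc 0 (r / 2), ENNReal.ofReal (2 * π * (M - (t ^ 4 + t ^ 2)) - 2 * ε) :=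
    setLIntegral_mono' measurableSet_Icc hin
  have key2 := key.trans (add_le_add hrhs le_rfl)
  have hfin : ∫⁻ t in Icc 0 (r / 2), ENNReal.ofReal (2 * π * (M - (t ^ 4 + t ^ 2)) - 2 * ε) ≠ ⊤ := by
    refine ne_top_of_le_ne_top ?_ (setLIntegral_mono' measurableSet_Icc (g := fun _ => ENNReal.ofReal (2 * π * M))
      fun t ht => ENNReal.ofReal_le_ofReal ?_)
    · rw [setLIntegral_const, Real.volume_Icc]
      exact ENNReal.mul_ne_top ENNReal.ofReal_ne_top ENNReal.ofReal_ne_top
    · have h1 : 0 ≤ 2 * π * (t ^ 4 + t ^ 2) := by positivity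
      nlinarith
  rw [ENNReal.add_le_add_iff_left hfin, ← ENNReal.ofReal_mul (by positivity),
    ENNReal.ofReal_le_ofReal_iff (by positivity)] at key2
  -- contradiction
  have h2r : 0 < (2 * r) ^ n := by positivity
  rw [le_div_iff₀ h2r] at key2
  have h3 : C * ε / r * d * K ≤ ε / r * (r ^ 2 * (2 * r) ^ n / 2) := by
    rw [← hdeq]
    have h4 : C * ε / r * d * K = ε / r * (C * K * d) := by ring
    rw [h4]
    have h5 : C * K * d ≤ C * (K + 1) * d := by gcongr; linarith
    gcongr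
  have h4 : ε / r * (r ^ 2 * (2 * r) ^ n / 2) = ε * r * (2 * r) ^ n / 2 := by
    field_simp
  rw [h4] at h3
  have h5 : 0 < ε * r * (2 * r) ^ n := by positivity
  nlinarith

end Pool.Agent.W809.JS
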