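import Pool.Agent.W809.JS.Stm

set_option autoImplicit false

open MeasureTheory Filter Topology Set Metric Real
open Pool.Agent.Results.MP_5c297c_an.NotJessen

namespace Pool.Agent.W809.JS

variable {n : ℕ}

/-- the model function `|y - p|² + max (0, (y_j - p_j)² - (y_i - p_i))` -/
noncomputable def phi (p : Fin n → ℝ) (i j : Fin n) (y : Fin n → ℝ) : ℝ :=
  ∑ k, (y k - p k) ^ 2 + max 0 ((y j - p j) ^ 2 - (y i - p i))

lemma continuous_phi (p : Fin n → ℝ) (i j : Fin n) : Continuous (phi p i j) := by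
  unfold phi
  fun_prop

lemma phi_strict (p : Fin n → ℝ) (i j : Fin n) (G : Set (Fin n → ℝ)) (hG : Convex ℝ G) :
    StrictConvexOn ℝ G (phi p i j) := by
  have h1 : StrictConvexOn ℝ G (fun y : Fin n → ℝ => ∑ k, (y k - p k) ^ 2) := by
    refine ⟨hG, ?_⟩
    intro x _ y _ hxy a b ha hb hab
    have hb' : b = 1 - a := by linarith
    subst hb'
    have key : ∀ k, ((a • x + (1 - a) • y) k - p k) ^ 2
        = a * (x k - p k) ^ 2 + (1 - a) * (y k - p k) ^ 2 - a * (1 - a) * (x k - y k) ^ 2 := by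
      intro k
      simp only [Pi.add_apply, Pi.smul_apply, smul_eq_mul]
      ring
    simp only [key, Finset.sum_sub_distrib, Finset.sum_add_distrib, ← Finset.mul_sum, smul_eq_mul]
    have hpos : 0 < ∑ k, (x k - y k) ^ 2 := by
      obtain ⟨k, hk⟩ := Function.ne_iff.1 hxy
      refine Finset.sum_pos' (fun _ _ => sq_nonneg _) ⟨k, Finset.mem_univ k, ?_⟩
      have : x k - y k ≠ 0 := sub_ne_zero.2 hk
      positivity
    have := mul_pos (mul_pos ha hb) hpos
    linarith
  have h2 : ConvexOn ℝ G (fun y : Fin n → ℝ => max 0 ((y j - p j) ^ 2 - (y i - p i))) := by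
    refine (convexOn_const 0 hG).sup ?_
    refine ⟨hG, ?_⟩
    intro x _ y _ a b ha hb hab
    simp only [Pi.add_apply, Pi.smul_apply, smul_eq_mul]
    have hb' : b = 1 - a := by linarith
    subst hb'
    nlinarith [mul_nonneg ha hb, sq_nonneg (x j - y j),
      mul_nonneg (mul_nonneg ha hb) (sq_nonneg (x j - y j))]
  exact h1.add_convexOn h2

lemma not_affine_of_strict {G : Set (Fin n → ℝ)} {φ : (Fin n → ℝ) → ℝ} (h : StrictConvexOn ℝ G φ)
    {a b : Fin n → ℝ} (hab : a ≠ b) (hseg : segment ℝ a b ⊆ G) :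
    ¬ ∃ (A : (Fin n → ℝ) →ₗ[ℝ] ℝ) (c : ℝ), ∀ y ∈ segment ℝ a b, φ y = A y + c := by
  rintro ⟨A, c, hA⟩
  have ha := left_mem_segment ℝ a b
  have hb := right_mem_segment ℝ a b
  have hm : (1 / 2 : ℝ) • a + (1 / 2 : ℝ) • b ∈ segment ℝ a b :=
    ⟨1 / 2, 1 / 2, by norm_num, by norm_num, by norm_num, rfl⟩
  have h1 := h.2 (hseg ha) (hseg hb) hab (by norm_num : (0:ℝ) < 1 / 2) (by norm_num : (0:ℝ) < 1 / 2)
    (by norm_num)
  rw [hA _ hm, hA _ ha, hA _ hb, map_add, map_smul, map_smul] at h1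
  simp only [smul_eq_mul] at h1
  linarith

lemma yt_mem {p : Fin n → ℝ} {i j : Fin n} (hij : i ≠ j) {t r : ℝ} (hr : 0 < r) (hr1 : r ≤ 1)
    (ht : t ∈ Icc 0 (r / 2)) : yt p i j t ∈ closedBall p r := by
  rw [mem_closedBall, dist_pi_le_iff hr.le]
  intro k
  rw [Real.dist_eq]
  have h1 : t ^ 2 ≤ r := by nlinarith [ht.1, ht.2]
  unfold yt
  by_cases hki : k = i
  · have hkj : k ≠ j := by rintro rfl; exact hij hki.symm
    simp only [hki, if_true, hij, if_false]
    rw [show p i + t ^ 2 + 0 - p i = t ^ 2 by ring, abs_of_nonneg (sq_nonneg t)]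
    exact h1
  · by_cases hkj : k = j
    · simp only [hki, if_false, hkj, if_true, hij.symm]
      rw [show p j + 0 + t - p j = t by ring, abs_of_nonneg ht.1]
      linarith [ht.2]
    · simp only [hki, hkj, if_false]
      rw [show p k + 0 + 0 - p k = 0 by ring, abs_zero]
      exact hr.le

lemma phi_yt (p : Fin n → ℝ) {i j : Fin n} (hij : i ≠ j) (t u : ℝ) :
    phi p i j (yt p i j t + fun k => if k = i then u else 0) = (t ^ 2 + u) ^ 2 + t ^ 2 + max 0 (-u) := by
  have hk : ∀ k, (yt p i j t + fun k => if k = i then u else 0) k - p k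
      = (if k = i then t ^ 2 + u else 0) + (if k = j then t else 0) := by
    intro k
    simp only [Pi.add_apply, yt]
    split_ifs <;> ring
  unfold phi
  simp only [hk]
  have h1 : ∑ k : Fin n, ((if k = i then t ^ 2 + u else 0) + (if k = j then t else 0)) ^ 2
      = (t ^ 2 + u) ^ 2 + t ^ 2 := by
    have h2 : ∀ k : Fin n, ((if k = i then t ^ 2 + u else 0) + (if k = j then t else 0)) ^ 2
        = (if k = i then (t ^ 2 + u) ^ 2 else 0) + (if k = j then t ^ 2 else 0) := by
      intro k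
      by_cases hki : k = i
      · subst hki; simp [hij]
      · by_cases hkj : k = j
        · subst hkj; simp [hki]
        · simp [hki, hkj]
    simp only [h2, Finset.sum_add_distrib, Finset.sum_ite_eq', Finset.mem_univ, if_true]
  rw [h1]
  simp only [hij, hij.symm, if_true, if_false]
  congr 2
  ring

lemma integral_neg_part {ε : ℝ} (hε : 0 ≤ ε) : ∫ θ in (0:ℝ)..(2 * π), max 0 (-(ε * Real.sin θ)) = 2 * ε := by
  have hi : ∀ a b : ℝ, IntervalIntegrable (fun θ => max 0 (-(ε * Real.sin θ))) volume a b := by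
    intro a b
    apply Continuous.intervalIntegrable
    fun_prop
  have hπ := Real.pi_pos
  rw [← intervalIntegral.integral_add_adjacent_intervals (hi 0 π) (hi π (2 * π))]
  have h1 : ∫ θ in (0:ℝ)..π, max 0 (-(ε * Real.sin θ)) = 0 := by
    rw [intervalIntegral.integral_congr (g := fun _ => (0:ℝ))]
    · simp
    · intro θ hθ
      rw [uIcc_of_le hπ.le] at hθ
      have := Real.sin_nonneg_of_nonneg_of_le_pi hθ.1 hθ.2
      simp only
      rw [max_eq_left]
      have := mul_nonneg hε this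
      linarith
  have h2 : ∫ θ in π..(2 * π), max 0 (-(ε * Real.sin θ)) = ∫ θ in π..(2 * π), -(ε * Real.sin θ) := by
    refine intervalIntegral.integral_congr ?_
    intro θ hθ
    rw [uIcc_of_le (by linarith)] at hθ
    have h3 : Real.sin θ ≤ 0 := by
      have := Real.sin_nonneg_of_nonneg_of_le_pi (x := θ - π) (by linarith [hθ.1]) (by linarith [hθ.2])
      rw [Real.sin_sub_pi] at this
      linarith
    simp only
    rw [max_eq_right]
    nlinarith
  rw [h1, h2, intervalIntegral.integral_neg, intervalIntegral.integral_const_mul, integral_sin]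
  rw [Real.cos_two_pi, Real.cos_pi]
  ring

lemma integral_phi (M t ε : ℝ) (hε : 0 ≤ ε) :
    ∫ θ in (0:ℝ)..(2 * π), (M - ((t ^ 2 + ε * Real.sin θ) ^ 2 + t ^ 2 + max 0 (-(ε * Real.sin θ))))
      = 2 * π * (M - (t ^ 4 + t ^ 2)) - π * ε ^ 2 - 2 * ε := by
  have h1 := integral_model (M - t ^ 2) (t ^ 2) ε
  have h2 := integral_neg_part hε
  have e : ∀ θ : ℝ, M - ((t ^ 2 + ε * Real.sin θ) ^ 2 + t ^ 2 + max 0 (-(ε * Real.sin θ)))
      = (M - t ^ 2 - (t ^ 2 + ε * Real.sin θ) ^ 2) - max 0 (-(ε * Real.sin θ)) := by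
    intro θ; ring
  simp_rw [e]
  rw [intervalIntegral.integral_sub, h1, h2]
  · ring
  · apply Continuous.intervalIntegrable
    fun_prop
  · apply Continuous.intervalIntegrable
    fun_prop

lemma phi_le (p : Fin n → ℝ) (i j : Fin n) {r : ℝ} (hr : 0 < r) (hr1 : r ≤ 1 / 4) {y : Fin n → ℝ}
    (hy : y ∈ closedBall p (2 * r)) : phi p i j y ≤ n + 1 := by
  have h1 : ∀ k, |y k - p k| ≤ 1 / 2 := by
    intro k
    rw [mem_closedBall, dist_pi_le_iff (by positivity)] at hy
    have := hy k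
    rw [Real.dist_eq] at this
    linarith
  have h2 : ∀ k, (y k - p k) ^ 2 ≤ 1 / 4 := by
    intro k
    have := h1 k
    rw [← sq_abs]
    nlinarith [abs_nonneg (y k - p k)]
  unfold phi
  have h3 : ∑ k, (y k - p k) ^ 2 ≤ n := by
    calc ∑ k, (y k - p k) ^ 2 ≤ ∑ _k : Fin n, (1:ℝ) := Finset.sum_le_sum fun k _ => (h2 k).trans (by norm_num)
      _ = n := by simp
  have h4 : max 0 ((y j - p j) ^ 2 - (y i - p i)) ≤ 1 := by
    refine max_le (by norm_num) ?_
    have h5 := h2 j
    have h6 := abs_le.1 (h1 i)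
    linarith [h6.1]
  linarith

end Pool.Agent.W809.JS
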