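import Pool.Agent.Results.MP_5c297c_an.NotJessen

set_option autoImplicit false

open MeasureTheory Filter Topology Set Metric Real
open Pool.Agent.Results.MP_5c297c_an.NotJessen

namespace Pool.Agent.W809.JS

/-- Blaschke factor of the disc of radius `8 s` about `c`, with zero `a`. -/
noncomputable def bl (s : ℝ) (c a z : ℂ) : ℂ :=
  (8 * (s : ℂ)) * (z - a) / ((8 * (s : ℂ)) ^ 2 - (starRingEnd ℂ) (a - c) * (z - c))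

/-- `G` is measurable, analytic near the disc of radius `8 s` about `c` and bounded by `e^M` there. -/
def Good (s M : ℝ) (c : ℂ) (G : ℂ → ℂ) : Prop :=
  Measurable G ∧ AnalyticOnNhd ℂ G (closedBall c (8 * s)) ∧
    ∀ z ∈ closedBall c (8 * s), ‖G z‖ ≤ Real.exp M

/-- induction on the number of zeros: divide by Blaschke factors -/
def S_IND : Prop := ∀ (s M : ℝ) (c : ℂ), 0 < s → 0 ≤ M → ∀ Pr : (ℂ → ℂ) → Prop,
  (∀ G, Good s M c G → (∀ z ∈ closedBall c (4 * s), G z ≠ 0) → Pr G) →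
  (∀ G H a, Good s M c G → Good s M c H → a ∈ closedBall c (4 * s) → a ≠ c → H c ≠ 0 →
    (∀ z ∈ closedBall c (8 * s), G z = bl s c a z * H z) → Pr H → Pr G) →
  ∀ G, Good s M c G → G c ≠ 0 → Pr G

/-- square integral of the logarithmic deficit over a segment -/
def S_L2 : Prop := ∃ C : ℝ, 2 ≤ C ∧ ∀ (s M : ℝ) (c : ℂ) (G : ℂ → ℂ), 0 < s → 0 ≤ M → Good s M c G →
  ∀ y : ℝ, |y - c.im| ≤ s →
    ∫⁻ x in Icc (c.re - s) (c.re + s), (dfc M (G ((x : ℂ) + (y : ℂ) * Complex.I))) ^ 2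
      ≤ ENNReal.ofReal (C * s) * (dfc M (G c)) ^ 2

/-- reverse mean value inequality on a segment, with an error linear in the radius -/
def S_SEG : Prop := ∃ C : ℝ, 0 < C ∧ ∀ (s M : ℝ) (c : ℂ) (G : ℂ → ℂ), 0 < s → 0 ≤ M → Good s M c G →
  ∀ y : ℝ, |y - c.im| ≤ s → ∀ ε : ℝ, 0 < ε → ε ≤ s →
  ∀ S : Set ℝ, MeasurableSet S → S ⊆ Icc (c.re - s) (c.re + s) →
    ENNReal.ofReal (2 * π) * ∫⁻ x in S, dfc M (G ((x : ℂ) + (y : ℂ) * Complex.I))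
      ≤ (∫⁻ x in S, ∫⁻ θ in Ioc 0 (2 * π),
          dfc M (G ((x : ℂ) + (y : ℂ) * Complex.I + circleMap 0 ε θ)))
        + ENNReal.ofReal (C * ε) * dfc M (G c)

/-- integrate one coordinate twice -/
def S_FUB : Prop := ∀ (n : ℕ) (i : Fin n) (h : Fin n → ℝ) (r : ℝ), 0 < r →
  ∀ F : (Fin n → ℝ) → ENNReal, Measurable F →
    ∫⁻ x in closedBall h r, ∫⁻ s in Icc (h i - r) (h i + r), F (Function.update x i s)
      = ENNReal.ofReal (2 * r) * ∫⁻ x in closedBall h r, F x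

/-- the square integral bound on real slices of `ℂⁿ` -/
def S_ITER : Prop := ∃ C : ℝ, 1 ≤ C ∧ ∀ (n : ℕ) (s M : ℝ) (z : Fin n → ℂ) (y : Fin n → ℝ)
  (f : (Fin n → ℂ) → ℂ) (U : Set (Fin n → ℂ)), 0 < s → s ≤ 1 → 0 ≤ M → Measurable f → IsOpen U →
  DifferentiableOn ℂ f U → closedBall z (8 * s) ⊆ U → (∀ w ∈ U, ‖f w‖ ≤ Real.exp M) →
  (∀ k, |y k - (z k).im| ≤ s) →
    (∫⁻ x in closedBall (rePart z) s, (dfc M (f (cpt x y))) ^ 2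
      ≤ ENNReal.ofReal (C ^ n) * (dfc M (f z)) ^ 2) ∧
    ∀ i : Fin n, ∫⁻ x in closedBall (rePart z) s, (dfc M (f (Function.update (cpt x y) i (z i)))) ^ 2
      ≤ ENNReal.ofReal (C ^ n) * (dfc M (f z)) ^ 2

/-- `f` is measurable, holomorphic in the tube over `ball p R` and bounded by `e^M` there. -/
def Hol {n : ℕ} (f : (Fin n → ℂ) → ℂ) (p : Fin n → ℝ) (R M : ℝ) : Prop :=
  Measurable f ∧ DifferentiableOn ℂ f (tube (ball p R)) ∧ ∀ z ∈ tube (ball p R), ‖f z‖ ≤ Real.exp M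

/-- `f` is almost periodic in the tube over `ball p R`. -/
def AP {n : ℕ} (f : (Fin n → ℂ) → ℂ) (p : Fin n → ℝ) (R : ℝ) : Prop :=
  ∀ ε : ℝ, 0 < ε → ∃ l : ℝ, 0 < l ∧ ∀ a : Fin n → ℝ, ∃ h ∈ cube l a,
    ∀ z ∈ tube (ball p R), ‖f (z + cpt h 0) - f z‖ ≤ ε

/-- zeros on a real slice form a null set -/
def S_ZN : Prop := ∀ (n : ℕ) (f : (Fin n → ℂ) → ℂ) (p : Fin n → ℝ) (R M : ℝ), 0 < R → 0 ≤ M →
  Hol f p R M → (∃ z ∈ tube (ball p R), f z ≠ 0) → ∀ y ∈ ball p R,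
    ∀ᵐ x : Fin n → ℝ, f (cpt x y) ≠ 0

/-- translates have uniformly Cauchy subsequences -/
def S_CAU : Prop := ∀ (n : ℕ) (f : (Fin n → ℂ) → ℂ) (p : Fin n → ℝ) (R M R' : ℝ), 0 < R' → R' < R →
  0 ≤ M → Hol f p R M → AP f p R → ∀ h : ℕ → Fin n → ℝ, ∃ σ : ℕ → ℕ, StrictMono σ ∧
    ∀ ε : ℝ, 0 < ε → ∃ N : ℕ, ∀ k ≥ N, ∀ l ≥ N, ∀ z ∈ tube (ball p R'),
      ‖f (z + cpt (h (σ k)) 0) - f (z + cpt (h (σ l)) 0)‖ ≤ ε

/-- limits of translates -/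
def S_HULL : Prop := ∀ (n : ℕ) (f : (Fin n → ℂ) → ℂ) (p : Fin n → ℝ) (R M R' : ℝ), 0 < R' → R' < R →
  0 ≤ M → Hol f p R M → AP f p R → ∀ h : ℕ → Fin n → ℝ,
    ∃ (σ : ℕ → ℕ) (g : (Fin n → ℂ) → ℂ), StrictMono σ ∧ Hol g p R' M ∧
      ∀ ε : ℝ, 0 < ε → ∃ N : ℕ, ∀ k ≥ N, ∀ z ∈ tube (ball p R'),
        ‖f (z + cpt (h (σ k)) 0) - g z‖ ≤ ε

/-- limits of translates do not vanish identically -/
def S_NV : Prop := ∀ (n : ℕ) (f g : (Fin n → ℂ) → ℂ) (p : Fin n → ℝ) (R R' : ℝ), 0 < R' → R' ≤ R →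
  AP f p R → (∃ z ∈ tube (ball p R'), f z ≠ 0) → ∀ h : ℕ → Fin n → ℝ,
  (∀ ε : ℝ, 0 < ε → ∃ N : ℕ, ∀ k ≥ N, ∀ z ∈ tube (ball p R'),
        ‖f (z + cpt (h k) 0) - g z‖ ≤ ε) → ∃ z ∈ tube (ball p R'), g z ≠ 0

/-- uniform lower bound -/
def S_LOW : Prop := ∀ (n : ℕ) (f : (Fin n → ℂ) → ℂ) (p : Fin n → ℝ) (R M r : ℝ), 0 < r → r < R →
  0 ≤ M → Hol f p R M → AP f p R → (∃ z ∈ tube (ball p R), f z ≠ 0) →
    ∃ η : ℝ, 0 < η ∧ ∀ h : Fin n → ℝ, ∃ z ∈ closedBall (cpt h p) r, η ≤ ‖f z‖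

/-- a holomorphic branch meets the curved hypersurface in a null set -/
def S_BR : Prop := ∀ (V : Set ℂ) (Z : ℂ → ℂ), IsOpen V → DifferentiableOn ℂ Z V →
  volume {w : ℂ | w ∈ V ∧ (Z w).im = w.im ^ 2} = 0

/-- zeros of a function of two variables on the curved hypersurface -/
def S_NULL2 : Prop := ∀ (ρ : ℝ) (g : ℂ × ℂ → ℂ), 0 < ρ →
  DifferentiableOn ℂ g {q | |q.1.im| < ρ ∧ |q.2.im| < ρ} →
  (∃ q : ℂ × ℂ, |q.1.im| < ρ ∧ |q.2.im| < ρ ∧ g q ≠ 0) →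
    volume {w : ℂ | |w.im| < ρ ∧ w.im ^ 2 < ρ ∧ ∃ ζ : ℂ, ζ.im = w.im ^ 2 ∧ g (ζ, w) = 0} = 0

/-- the point `p + t² e_i + t e_j` (for `i ≠ j`) -/
noncomputable def yt {n : ℕ} (p : Fin n → ℝ) (i j : Fin n) (t : ℝ) : Fin n → ℝ :=
  fun k => p k + (if k = i then t ^ 2 else 0) + (if k = j then t else 0)

/-- zeros on the curved hypersurface, in `n` variables -/
def S_NULLN : Prop := ∀ (n : ℕ) (i j : Fin n), i ≠ j → ∀ (g : (Fin n → ℂ) → ℂ) (p : Fin n → ℝ)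
  (R M b : ℝ), 0 < R → 0 ≤ M → Hol g p R M → (∃ z ∈ tube (ball p R), g z ≠ 0) →
  0 < b → b < R → b ^ 2 < R →
    volume {q : (Fin n → ℝ) × ℝ | q.2 ∈ Icc 0 b ∧ ∃ ζ : ℂ, ζ.im = p i + q.2 ^ 2 ∧
      g (Function.update (cpt q.1 (yt p i j q.2)) i ζ) = 0} = 0

/-- the real slices with a zero close to the curved hypersurface -/
def bad {n : ℕ} (f : (Fin n → ℂ) → ℂ) (p : Fin n → ℝ) (i j : Fin n) (r ε : ℝ) (h : Fin n → ℝ) :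
    Set ((Fin n → ℝ) × ℝ) :=
  {q | q.1 ∈ closedBall h r ∧ q.2 ∈ Icc 0 (r / 2) ∧ ∃ ζ : ℂ, |ζ.re - h i| ≤ 2 * r ∧
    |ζ.im - (p i + q.2 ^ 2)| ≤ ε ∧ f (Function.update (cpt q.1 (yt p i j q.2)) i ζ) = 0}

/-- the bad set is small, uniformly in the translation -/
def S_SMALL : Prop := ∀ (n : ℕ) (i j : Fin n), i ≠ j → ∀ (f : (Fin n → ℂ) → ℂ) (p : Fin n → ℝ)
  (R M r : ℝ), 0 < r → r ≤ 1 → 4 * r < R → 0 ≤ M → Hol f p R M → AP f p R →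
  (∃ z ∈ tube (ball p R), f z ≠ 0) →
    ∀ δ : ℝ, 0 < δ → ∃ ε₀ : ℝ, 0 < ε₀ ∧ ∀ ε : ℝ, 0 < ε → ε ≤ ε₀ → ∀ h : Fin n → ℝ,
      volume (bad f p i j r ε h) ≤ ENNReal.ofReal δ

/-- local reverse mean value inequality with small error -/
def S_LOC : Prop := ∀ n : ℕ, ∃ C : ℝ, 0 < C ∧ ∀ (i j : Fin n), i ≠ j →
  ∀ (f : (Fin n → ℂ) → ℂ) (p : Fin n → ℝ) (r M : ℝ), 0 < r → r ≤ 1 / 4 → 0 ≤ M →
  Hol f p (40 * r) M → ∀ (h : Fin n → ℝ) (z : Fin n → ℂ), z ∈ closedBall (cpt h p) r →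
  ∀ ε : ℝ, 0 < ε → ε ≤ r → ∀ A : Set ((Fin n → ℝ) × ℝ), MeasurableSet A → bad f p i j r ε h ⊆ A →
    ENNReal.ofReal (2 * π) * ∫⁻ t in Icc 0 (r / 2), ∫⁻ x in closedBall h r,
        dfc M (f (cpt x (yt p i j t)))
      ≤ (∫⁻ t in Icc 0 (r / 2), ∫⁻ x in closedBall h r, ∫⁻ θ in Ioc 0 (2 * π),
          dfc M (f (cpt x (yt p i j t) + circleMap 0 ε θ • (Pi.single i 1 : Fin n → ℂ))))
        + ENNReal.ofReal (C * ε / r) * (volume A) ^ (1 / 2 : ℝ) * dfc M (f z)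

/-- averages over boxes -/
def S_BOX : Prop := ∀ (n : ℕ) (r T : ℝ), 0 < r → r < T → ∀ F : (Fin n → ℝ) → ENNReal, Measurable F →
  (ENNReal.ofReal ((2 * r) ^ n) * ∫⁻ x in cube (T - r) 0, F x
      ≤ ∫⁻ h in cube T (0 : Fin n → ℝ), ∫⁻ x in closedBall h r, F x) ∧
  (∫⁻ h in cube T (0 : Fin n → ℝ), ∫⁻ x in closedBall h r, F x
      ≤ ENNReal.ofReal ((2 * r) ^ n) * ∫⁻ x in cube (T + r) 0, F x)

/-- averaging the local inequality over all translations -/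
def S_AVG : Prop := ∀ (n : ℕ) (i j : Fin n), i ≠ j → ∀ (f : (Fin n → ℂ) → ℂ) (p : Fin n → ℝ)
  (r M : ℝ) (φ : (Fin n → ℝ) → ℝ), 0 < r → r ≤ 1 / 4 → 0 ≤ M → Hol f p (40 * r) M → Continuous φ →
  (∀ y ∈ closedBall p (2 * r), Tendsto (logMean f y) atTop (𝓝 (φ y))) →
  ∀ B : ℝ, (∀ h : Fin n → ℝ, ∀ y ∈ closedBall p (2 * r),
    ∫⁻ x in closedBall h r, dfc M (f (cpt x y)) ≤ ENNReal.ofReal B) →
  ∀ ε κ : ℝ, 0 < ε → ε ≤ r → 0 ≤ κ →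
  (∀ h : Fin n → ℝ, ENNReal.ofReal (2 * π) * ∫⁻ t in Icc 0 (r / 2), ∫⁻ x in closedBall h r,
        dfc M (f (cpt x (yt p i j t)))
      ≤ (∫⁻ t in Icc 0 (r / 2), ∫⁻ x in closedBall h r, ∫⁻ θ in Ioc 0 (2 * π),
          dfc M (f (cpt x (yt p i j t) + circleMap 0 ε θ • (Pi.single i 1 : Fin n → ℂ))))
        + ENNReal.ofReal κ) →
    ENNReal.ofReal (2 * π) * ∫⁻ t in Icc 0 (r / 2), ENNReal.ofReal (M - φ (yt p i j t))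
      ≤ (∫⁻ t in Icc 0 (r / 2), ∫⁻ θ in Ioc 0 (2 * π),
          ENNReal.ofReal (M - φ (yt p i j t + imPart (circleMap 0 ε θ • (Pi.single i 1 : Fin n → ℂ)))))
        + ENNReal.ofReal (κ / (2 * r) ^ n)

end Pool.Agent.W809.JS
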